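import Mathlib
import Pool.Agent.R674.SI.Assemble

/-!
# MP_69a6f7, Q1: intersections of conjugate soluble subgroups of symmetric groups

For all sufficiently large `n`: if `G` is `A_n` or `S_n` and `H`, `K` are soluble subgroups of
`G`, then `H ∩ K^x = 1` for some `x ∈ G`.
-/

namespace Pool.Agent.Results.MP_69a6f7_al.SolubleIntersections

open Equiv Pool.Agent.R674.SI

open Classical in
theorem bad_one {n L m : ℕ} (χ : Fin n → Fin qq) (hm : ∀ i, m ≤ (cls χ i).card)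
    (E : Fin n → Fin n → Prop) (hE : ∀ a, (Finset.univ.filter (fun b => E a b)).card ≤ L)
    (p : Fin n → Fin n) (hp : ∀ l, (Finset.univ.filter (fun a => p a = l)).card ≤ L)
    (σ : Perm (Fin n)) (hσ : (Finset.univ.filter
      (fun l => ∃ a b, p a = l ∧ p b = l ∧ χ (σ a) ≠ χ (σ b))).card ≤ qq)
    (hmL : 8 * (qq * L ^ 3) + 1 ≤ m) (hm2 : 2 ≤ m) :
    8 * ((WW χ).filter (fun w => ∃ a b, p a = p b ∧ χ (σ a) ≠ χ (σ b) ∧
      E (w (σ a)) (w (σ b)))).card ≤ (WW χ).card := by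
  set Pairs := (Finset.univ : Finset (Fin n × Fin n)).filter
    (fun ab => p ab.1 = p ab.2 ∧ χ (σ ab.1) ≠ χ (σ ab.2)) with hPairs
  set BL := Finset.univ.filter
      (fun l => ∃ a b, p a = l ∧ p b = l ∧ χ (σ a) ≠ χ (σ b)) with hBL
  have h1 : Pairs.card ≤ qq * (L * L) := by
    have h2 : Pairs ⊆ BL.biUnion (fun l => (Finset.univ.filter (fun a => p a = l)) ×ˢ
        (Finset.univ.filter (fun a => p a = l))) := by
      rintro ⟨a, b⟩ hab
      rw [hPairs, Finset.mem_filter] at hab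
      simp only [Finset.mem_biUnion, Finset.mem_product, Finset.mem_filter, Finset.mem_univ,
        true_and]
      refine ⟨p a, ?_, rfl, hab.2.1.symm⟩
      rw [hBL, Finset.mem_filter]
      exact ⟨Finset.mem_univ _, a, b, rfl, hab.2.1.symm, hab.2.2⟩
    refine (Finset.card_le_card h2).trans (Finset.card_biUnion_le.trans ?_)
    calc ∑ l ∈ BL, ((Finset.univ.filter (fun a => p a = l)) ×ˢ
        (Finset.univ.filter (fun a => p a = l))).card ≤ ∑ l ∈ BL, L * L := by
          apply Finset.sum_le_sum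
          intro l _
          rw [Finset.card_product]
          exact Nat.mul_le_mul (hp l) (hp l)
      _ = BL.card * (L * L) := by rw [Finset.sum_const, smul_eq_mul]
      _ ≤ qq * (L * L) := Nat.mul_le_mul_right _ hσ
  have h3 : ((WW χ).filter (fun w => ∃ a b, p a = p b ∧ χ (σ a) ≠ χ (σ b) ∧
      E (w (σ a)) (w (σ b)))).card ≤
      ∑ ab ∈ Pairs, ((WW χ).filter (fun w => E (w (σ ab.1)) (w (σ ab.2)))).card := by
    refine le_trans (Finset.card_le_card ?_) Finset.card_biUnion_le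
    intro w hw
    rw [Finset.mem_filter] at hw
    obtain ⟨hw, a, b, hab, hχ, hE'⟩ := hw
    rw [Finset.mem_biUnion]
    refine ⟨(a, b), ?_, ?_⟩
    · rw [hPairs, Finset.mem_filter]
      exact ⟨Finset.mem_univ _, hab, hχ⟩
    · rw [Finset.mem_filter]
      exact ⟨hw, hE'⟩
  have h4 : (∑ ab ∈ Pairs, ((WW χ).filter (fun w => E (w (σ ab.1)) (w (σ ab.2)))).card) * (m - 1)
      ≤ Pairs.card * ((WW χ).card * L) := by
    rw [Finset.sum_mul, ← smul_eq_mul (a := Pairs.card), ← Finset.sum_const]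
    apply Finset.sum_le_sum
    rintro ⟨a, b⟩ hab
    rw [hPairs, Finset.mem_filter] at hab
    have hne : σ a ≠ σ b := fun h => hab.2.2 (by simp only [h])
    exact pair_count χ E L hE m hm (σ a) (σ b) hne
  set B := ((WW χ).filter (fun w => ∃ a b, p a = p b ∧ χ (σ a) ≠ χ (σ b) ∧
      E (w (σ a)) (w (σ b)))).card with hB
  have h5 : B * (m - 1) ≤ qq * (L * L) * ((WW χ).card * L) :=
    (Nat.mul_le_mul_right _ h3).trans (h4.trans (Nat.mul_le_mul_right _ h1))
  have h6 : 8 * B * (m - 1) ≤ (WW χ).card * (m - 1) := by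
    calc 8 * B * (m - 1) = 8 * (B * (m - 1)) := by ring
      _ ≤ 8 * (qq * (L * L) * ((WW χ).card * L)) := Nat.mul_le_mul_left _ h5
      _ = (WW χ).card * (8 * (qq * L ^ 3)) := by ring
      _ ≤ (WW χ).card * (m - 1) := by
          apply Nat.mul_le_mul_left
          omega
  exact Nat.le_of_mul_le_mul_right h6 (by omega)

open Classical in
theorem bad_two {n m s₁ : ℕ} (χ : Fin n → Fin qq) (hm : ∀ i, m ≤ (cls χ i).card)
    (hm1 : 1 ≤ m) (hnm : n ≤ 4 * qq ^ 2 * m)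
    (hs₁ : 1 ≤ s₁) (hsA : 16 * (Real.exp (2 * cc + 1) * (4 * (qq : ℝ) ^ 2)) ≤ Real.sqrt s₁)
    (H K : Subgroup (Perm (Fin n))) [Group.IsSolvable H] [Group.IsSolvable K]
    (σ : Perm (Fin n)) :
    8 * (((WW χ).filter (fun w => ∃ h ∈ H, ∃ k ∈ K, s₁ ≤ h.support.card ∧
      k.support.card = h.support.card ∧ h * w = w * (σ * k * σ⁻¹))).card : ℝ) ≤
      (WW χ).card := by
  set A : ℝ := Real.exp (2 * cc + 1) * (4 * (qq : ℝ) ^ 2) with hA
  have hA0 : 0 < A := by
    have : (0 : ℝ) < qq := by unfold qq; positivity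
    positivity
  let NH : ℕ → Finset (Perm (Fin n)) := fun s =>
    Finset.univ.filter (fun g : Perm (Fin n) => g ∈ H ∧ g.support.card = s)
  let NK : ℕ → Finset (Perm (Fin n)) := fun s =>
    Finset.univ.filter (fun g : Perm (Fin n) => g ∈ K ∧ g.support.card = s)
  let F : Perm (Fin n) → Perm (Fin n) → Finset (Perm (Fin n)) := fun h k =>
    (WW χ).filter (fun w => h * w = w * (σ * k * σ⁻¹))
  have hW0 : (0 : ℝ) ≤ (WW χ).card := by positivity
  have hm0 : (0 : ℝ) < m := by exact_mod_cast hm1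
  have hF : ∀ s, ∀ h ∈ NH s, ∀ k ∈ NK s, ((F h k).card : ℝ) ≤
      (Real.sqrt s * (Real.exp 1 / m)) ^ s * (WW χ).card := by
    intro s h hh k hk
    simp only [NH, NK, Finset.mem_filter, Finset.mem_univ, true_and] at hh hk
    have hk' : (σ * k * σ⁻¹).support.card = s := by
      rw [Perm.support_conj, Finset.card_map]; exact hk.2
    have := conj_count χ h (σ * k * σ⁻¹) s hh.2 hk' m hm
    have hpos : (0 : ℝ) < ((m : ℝ) / Real.exp 1) ^ s := by positivity
    rw [← le_div_iff₀ hpos] at this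
    refine this.trans (le_of_eq ?_)
    rw [mul_pow, div_pow, div_pow]
    have : Real.exp 1 ^ s ≠ 0 := by positivity
    have : (m : ℝ) ^ s ≠ 0 := by positivity
    field_simp
  have h1 : (((WW χ).filter (fun w => ∃ h ∈ H, ∃ k ∈ K, s₁ ≤ h.support.card ∧
      k.support.card = h.support.card ∧ h * w = w * (σ * k * σ⁻¹))).card : ℝ) ≤
      ∑ s ∈ Finset.Icc s₁ n, ∑ h ∈ NH s, ∑ k ∈ NK s, ((F h k).card : ℝ) := by
    have h2 : ((WW χ).filter (fun w => ∃ h ∈ H, ∃ k ∈ K, s₁ ≤ h.support.card ∧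
      k.support.card = h.support.card ∧ h * w = w * (σ * k * σ⁻¹))) ⊆
      (Finset.Icc s₁ n).biUnion (fun s => (NH s).biUnion (fun h => (NK s).biUnion
        (fun k => F h k))) := by
      intro w hw
      rw [Finset.mem_filter] at hw
      obtain ⟨hw, h, hh, k, hk, h3, h4, h5⟩ := hw
      simp only [Finset.mem_biUnion, NH, NK, F, Finset.mem_filter, Finset.mem_univ, true_and,
        Finset.mem_Icc]
      refine ⟨h.support.card, ⟨h3, ?_⟩, h, ⟨hh, rfl⟩, k, ⟨hk, h4⟩, hw, h5⟩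
      exact (Finset.card_le_univ _).trans (le_of_eq (Fintype.card_fin n))
    have h3 := Finset.card_le_card h2
    have h4 : ((Finset.Icc s₁ n).biUnion (fun s => (NH s).biUnion (fun h => (NK s).biUnion
        (fun k => F h k)))).card ≤ ∑ s ∈ Finset.Icc s₁ n, ∑ h ∈ NH s, ∑ k ∈ NK s, (F h k).card := by
      refine Finset.card_biUnion_le.trans (Finset.sum_le_sum fun s _ => ?_)
      refine Finset.card_biUnion_le.trans (Finset.sum_le_sum fun h _ => ?_)
      exact Finset.card_biUnion_le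
    exact_mod_cast h3.trans h4
  have h2 : ∀ s ∈ Finset.Icc s₁ n, ∑ h ∈ NH s, ∑ k ∈ NK s, ((F h k).card : ℝ) ≤
      (1 / 16 : ℝ) ^ s * (WW χ).card := by
    intro s hs
    rw [Finset.mem_Icc] at hs
    have hs1 : 1 ≤ s := hs₁.trans hs.1
    have hs0 : (0 : ℝ) < s := by exact_mod_cast hs1
    have hn0 : (0 : ℝ) < n := by
      have : 0 < n := lt_of_lt_of_le hs1 hs.2
      exact_mod_cast this
    have e1 : ∑ h ∈ NH s, ∑ k ∈ NK s, ((F h k).card : ℝ) ≤
        ∑ h ∈ NH s, ∑ k ∈ NK s, (Real.sqrt s * (Real.exp 1 / m)) ^ s * (WW χ).card :=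
      Finset.sum_le_sum fun h hh => Finset.sum_le_sum fun k hk => hF s h hh k hk
    have e2 : ∑ h ∈ NH s, ∑ k ∈ NK s, (Real.sqrt s * (Real.exp 1 / m)) ^ s * ((WW χ).card : ℝ) =
        (NH s).card * (NK s).card * ((Real.sqrt s * (Real.exp 1 / m)) ^ s * (WW χ).card) := by
      rw [Finset.sum_const, Finset.sum_const, nsmul_eq_mul, nsmul_eq_mul]; ring
    have e3 : ((NH s).card : ℝ) ≤ (Real.exp cc * Real.sqrt (n / s)) ^ s := by
      exact_mod_cast Ns_bound H s hs1 hs.2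
    have e4 : ((NK s).card : ℝ) ≤ (Real.exp cc * Real.sqrt (n / s)) ^ s := by
      exact_mod_cast Ns_bound K s hs1 hs.2
    have e5 : (0 : ℝ) ≤ (Real.sqrt s * (Real.exp 1 / m)) ^ s * (WW χ).card := by positivity
    have e6 : ((NH s).card : ℝ) * (NK s).card * ((Real.sqrt s * (Real.exp 1 / m)) ^ s *
        (WW χ).card) ≤ (Real.exp cc * Real.sqrt (n / s)) ^ s *
          (Real.exp cc * Real.sqrt (n / s)) ^ s * ((Real.sqrt s * (Real.exp 1 / m)) ^ s *
        (WW χ).card) :=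
      mul_le_mul_of_nonneg_right (mul_le_mul e3 e4 (by positivity) (by positivity)) e5
    have e7 : (Real.exp cc * Real.sqrt (n / s)) ^ s *
          (Real.exp cc * Real.sqrt (n / s)) ^ s * ((Real.sqrt s * (Real.exp 1 / m)) ^ s *
        (WW χ).card) = (Real.exp cc * Real.sqrt (n / s) * (Real.exp cc * Real.sqrt (n / s)) *
          (Real.sqrt s * (Real.exp 1 / m))) ^ s * (WW χ).card := by
      generalize Real.exp cc * Real.sqrt (n / s) = u
      generalize Real.sqrt s * (Real.exp 1 / m) = v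
      rw [mul_pow (u * u) v, mul_pow u u]
      ring
    have e8 : Real.exp cc * Real.sqrt (n / s) * (Real.exp cc * Real.sqrt (n / s)) *
          (Real.sqrt s * (Real.exp 1 / m)) ≤ 1 / 16 := by
      have f1 : Real.sqrt (n / s) * Real.sqrt (n / s) = n / s := Real.mul_self_sqrt (by positivity)
      have f2 : Real.sqrt s * Real.sqrt s = s := Real.mul_self_sqrt hs0.le
      have f3 : 0 < Real.sqrt s := Real.sqrt_pos.2 hs0
      have f4 : Real.exp (2 * cc + 1) = Real.exp cc * Real.exp cc * Real.exp 1 := by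
        rw [← Real.exp_add, ← Real.exp_add]; ring_nf
      have f5 : Real.exp cc * Real.sqrt (n / s) * (Real.exp cc * Real.sqrt (n / s)) *
          (Real.sqrt s * (Real.exp 1 / m)) = Real.exp (2 * cc + 1) * (n / m) / Real.sqrt s := by
        calc _ = Real.exp cc * Real.exp cc * Real.exp 1 *
              (Real.sqrt (n / s) * Real.sqrt (n / s)) * Real.sqrt s / m := by ring
          _ = Real.exp (2 * cc + 1) * (n / s) * Real.sqrt s / m := by rw [f1, f4]
          _ = Real.exp (2 * cc + 1) * (n / m) / Real.sqrt s := by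
            rw [div_eq_div_iff hm0.ne' f3.ne']
            have : Real.exp (2 * cc + 1) * (n / s) * Real.sqrt s * Real.sqrt s =
              Real.exp (2 * cc + 1) * (n / s) * (Real.sqrt s * Real.sqrt s) := by ring
            rw [this, f2]
            field_simp
      have f6 : (n : ℝ) / m ≤ 4 * (qq : ℝ) ^ 2 := by
        rw [div_le_iff₀ hm0]; exact_mod_cast hnm
      have f7 : Real.exp (2 * cc + 1) * (n / m) ≤ A := by
        rw [hA]; exact mul_le_mul_of_nonneg_left f6 (Real.exp_pos _).le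
      have f8 : Real.sqrt s₁ ≤ Real.sqrt s := Real.sqrt_le_sqrt (by exact_mod_cast hs.1)
      rw [f5, div_le_iff₀ f3]
      linarith
    have e9 : (Real.exp cc * Real.sqrt (n / s) * (Real.exp cc * Real.sqrt (n / s)) *
          (Real.sqrt s * (Real.exp 1 / m))) ^ s ≤ (1 / 16 : ℝ) ^ s :=
      pow_le_pow_left₀ (by positivity) e8 s
    calc ∑ h ∈ NH s, ∑ k ∈ NK s, ((F h k).card : ℝ) ≤ _ := e1
      _ = _ := e2
      _ ≤ _ := e6
      _ = _ := e7
      _ ≤ _ := mul_le_mul_of_nonneg_right e9 hW0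
  have h3 : ∑ s ∈ Finset.Icc s₁ n, (1 / 16 : ℝ) ^ s * ((WW χ).card : ℝ) ≤ 1 / 8 * (WW χ).card := by
    rw [← Finset.sum_mul]
    apply mul_le_mul_of_nonneg_right _ hW0
    have g1 : ∑ s ∈ Finset.Icc s₁ n, (1 / 16 : ℝ) ^ s ≤ ∑ s ∈ Finset.Ico 1 (n + 1),
        (1 / 16 : ℝ) ^ s := by
      apply Finset.sum_le_sum_of_subset_of_nonneg
      · intro s hs
        rw [Finset.mem_Icc] at hs
        rw [Finset.mem_Ico]
        omega
      · intro _ _ _; positivity
    refine g1.trans ?_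
    rw [geom_sum_Ico (by norm_num) (by omega)]
    have g2 : (0 : ℝ) < (1 / 16 : ℝ) ^ (n + 1) := by positivity
    rw [div_le_iff_of_neg (by norm_num)]
    norm_num
    linarith
  have h4 := h1.trans ((Finset.sum_le_sum h2).trans h3)
  linarith

open Classical in
theorem core (n m s₁ : ℕ) (hs₁ : 1 ≤ s₁)
    (hsA : 16 * (Real.exp (2 * cc + 1) * (4 * (qq : ℝ) ^ 2)) ≤ Real.sqrt s₁)
    (hnL : qq * (qq * m + 2 * s₁) ≤ n) (hnm : n ≤ 4 * qq ^ 2 * m)
    (hmL : 8 * (qq * (2 * s₁) ^ 3) + 1 ≤ m)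
    (H K : Subgroup (Perm (Fin n))) [Group.IsSolvable H] [Group.IsSolvable K] :
    ∃ x : Perm (Fin n), Perm.sign x = 1 ∧ ∀ g ∈ H, x * g * x⁻¹ ∈ K → g = 1 := by
  have hq : 0 < qq := by unfold qq; positivity
  have hm2 : 2 ≤ m := by
    have : 1 ≤ qq * (2 * s₁) ^ 3 := Nat.succ_le_of_lt (by positivity)
    omega
  have hn1 : 1 ≤ n := by
    have : 0 < qq * (qq * m + 2 * s₁) := by positivity
    omega
  -- the subgroups generated by the elements of small support
  let TH : Set (Perm (Fin n)) := {g | g ∈ H ∧ g.support.card < s₁}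
  let TK : Set (Perm (Fin n)) := {g | g ∈ K ∧ g.support.card < s₁}
  set H₀ := Subgroup.closure TH with hH₀
  set K₀ := Subgroup.closure TK with hK₀
  have hH₀H : H₀ ≤ H := (Subgroup.closure_le H).2 (fun g hg => hg.1)
  have hK₀K : K₀ ≤ K := (Subgroup.closure_le K).2 (fun g hg => hg.1)
  have sH : Group.IsSolvable H₀ :=
    Group.isSolvable_of_isSolvable_injective (Subgroup.inclusion_injective hH₀H)
  have sK : Group.IsSolvable K₀ :=
    Group.isSolvable_of_isSolvable_injective (Subgroup.inclusion_injective hK₀K)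
  have oH := orbit_bound H₀ s₁ hs₁ TH rfl (fun g hg => hg.2)
  have oK := orbit_bound K₀ s₁ hs₁ TK rfl (fun g hg => hg.2)
  -- an asymmetric colouring for `H₀` with large colour classes
  obtain ⟨c, hc⟩ := DCl_all n (Fintype.card_fin n) hn1 H₀
  obtain ⟨χ, hχ, hχm⟩ := balanced (L := 2 * s₁) (D := qq * m) (m := m) H₀ (c ⟨0, hq⟩)
    (fun h hh hh' => (hc _ _ h hh hh').2) oH hnL le_rfl
  obtain ⟨pH, hpH⟩ := exists_label H₀
  obtain ⟨pK, hpK⟩ := exists_label K₀
  obtain ⟨σ, hσ⟩ := sorting χ pK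
  have hE : ∀ a, (Finset.univ.filter (fun b => pH a = pH b)).card ≤ 2 * s₁ := by
    intro a
    refine le_trans (Finset.card_le_card ?_) (label_card hpH oH (pH a))
    intro b hb
    rw [Finset.mem_filter] at hb ⊢
    exact ⟨hb.1, hb.2.symm⟩
  have hB1 := bad_one χ hχm (fun a b => pH a = pH b) (by convert hE) pK (label_card hpK oK) σ hσ hmL hm2
  have hB2 := bad_two χ hχm (by omega) hnm hs₁ hsA H K σ
  set B1 := (WW χ).filter (fun w => ∃ a b, pK a = pK b ∧ χ (σ a) ≠ χ (σ b) ∧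
      pH (w (σ a)) = pH (w (σ b))) with hB1def
  set B2 := (WW χ).filter (fun w => ∃ h ∈ H, ∃ k ∈ K, s₁ ≤ h.support.card ∧
      k.support.card = h.support.card ∧ h * w = w * (σ * k * σ⁻¹)) with hB2def
  have hB2' : 8 * B2.card ≤ (WW χ).card := by exact_mod_cast hB2
  have hB1' : 8 * B1.card ≤ (WW χ).card := by rw [hB1def]; convert hB1
  -- two points with the same colour
  obtain ⟨x, y, hxy, hxyχ⟩ : ∃ x y : Fin n, x ≠ y ∧ χ x = χ y := by
    have := (hχm ⟨0, hq⟩)
    obtain ⟨x, hx, y, hy, hxy⟩ := Finset.one_lt_card.1 (lt_of_lt_of_le (by omega) this)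
    exact ⟨x, y, hxy, ((mem_cls χ).1 hx).trans ((mem_cls χ).1 hy).symm⟩
  have hhalf := parity_half χ hxy hxyχ (Perm.sign σ)
  have hWpos : 0 < (WW χ).card := Finset.card_pos.2 ⟨1, one_mem_WW χ⟩
  obtain ⟨w, hw, hwB⟩ : ∃ w ∈ (WW χ).filter (fun w => Perm.sign w = Perm.sign σ),
      w ∉ B1 ∪ B2 := by
    by_contra hcon
    push Not at hcon
    have h1 := Finset.card_le_card (show (WW χ).filter (fun w => Perm.sign w = Perm.sign σ) ⊆
      B1 ∪ B2 from hcon)
    have h2 := Finset.card_union_le B1 B2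
    omega
  rw [Finset.mem_filter] at hw
  obtain ⟨hwW, hwsign⟩ := hw
  rw [Finset.mem_union, not_or] at hwB
  obtain ⟨hwB1, hwB2⟩ := hwB
  have hwχ := (mem_WW χ).1 hwW
  refine ⟨σ⁻¹ * w⁻¹, ?_, ?_⟩
  · rw [map_mul, map_inv, map_inv, hwsign]
    rcases Int.units_eq_one_or (Perm.sign σ) with h | h <;> rw [h] <;> decide
  intro g hg hgK
  set k := σ⁻¹ * w⁻¹ * g * (σ⁻¹ * w⁻¹)⁻¹ with hk
  have hgw : g * w = w * (σ * k * σ⁻¹) := by rw [hk]; group
  have hsupp : k.support.card = g.support.card := by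
    rw [hk, Perm.support_conj, Finset.card_map]
  have hsmall : g.support.card < s₁ := by
    by_contra hcon
    apply hwB2
    rw [hB2def, Finset.mem_filter]
    exact ⟨hwW, g, hg, k, hgK, not_lt.1 hcon, hsupp, hgw⟩
  have hgH₀ : g ∈ H₀ := Subgroup.subset_closure ⟨hg, hsmall⟩
  have hkK₀ : k ∈ K₀ := Subgroup.subset_closure ⟨hgK, by rw [hsupp]; exact hsmall⟩
  apply hχ g hgH₀
  intro y
  obtain ⟨a, rfl⟩ : ∃ a, w (σ a) = y := ⟨σ⁻¹ (w⁻¹ y), by simp⟩
  have hga : g (w (σ a)) = w (σ (k a)) := by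
    calc g (w (σ a)) = (g * w) (σ a) := rfl
      _ = (w * (σ * k * σ⁻¹)) (σ a) := by rw [hgw]
      _ = w (σ (k a)) := by simp [Perm.mul_apply]
  by_contra hne
  rw [hga, hwχ, hwχ] at hne
  apply hwB1
  rw [hB1def, Finset.mem_filter]
  refine ⟨hwW, a, k a, (hpK a (k a)).2 ⟨⟨k, hkK₀⟩, rfl⟩, fun h => hne h.symm, ?_⟩
  rw [hpH]
  exact ⟨⟨g, hgH₀⟩, hga⟩

/-- Property `P(n)`: for `G = A_n` and for `G = S_n`, any two soluble subgroups `H`, `K` of `G`
satisfy `H ∩ K^x = 1` for some `x ∈ G`, where `K^x = x⁻¹ K x`. -/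
def PropP (n : ℕ) : Prop :=
  ∀ G : Subgroup (Perm (Fin n)), (G = alternatingGroup (Fin n) ∨ G = ⊤) →
    ∀ H K : Subgroup G, Group.IsSolvable H → Group.IsSolvable K →
      ∃ x : G, H ⊓ K.map (MulAut.conj x⁻¹).toMonoidHom = ⊥

theorem core_large : ∃ N : ℕ, ∀ n ≥ N, ∀ (H K : Subgroup (Perm (Fin n))),
    Group.IsSolvable H → Group.IsSolvable K →
    ∃ x : Perm (Fin n), Perm.sign x = 1 ∧ ∀ g ∈ H, x * g * x⁻¹ ∈ K → g = 1 := by
  obtain ⟨s₁, hs₁, hsA⟩ : ∃ s₁ : ℕ, 1 ≤ s₁ ∧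
      16 * (Real.exp (2 * cc + 1) * (4 * (qq : ℝ) ^ 2)) ≤ Real.sqrt s₁ := by
    obtain ⟨s, hs⟩ := exists_nat_ge ((16 * (Real.exp (2 * cc + 1) * (4 * (qq : ℝ) ^ 2))) ^ 2)
    refine ⟨s + 1, by omega, ?_⟩
    apply Real.le_sqrt_of_sq_le
    push_cast
    linarith
  have hq : 0 < qq := by unfold qq; positivity
  refine ⟨2 * qq ^ 2 * (8 * (qq * (2 * s₁) ^ 3) + 2) + 2 * (qq * (2 * s₁)), ?_⟩
  intro n hn H K hH hK
  set Q := 2 * qq ^ 2 with hQ
  have hQ0 : 0 < Q := by positivity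
  set m := n / Q with hm
  set M := 8 * (qq * (2 * s₁) ^ 3) with hM
  have h1 : Q * m ≤ n := Nat.mul_div_le n Q
  have h2 : n < Q * m + Q := by
    have := Nat.lt_mul_div_succ n hQ0
    rw [Nat.mul_succ] at this
    exact this
  have hmM : M + 1 ≤ m := by
    rw [hm, Nat.le_div_iff_mul_le hQ0]
    have : (M + 1) * Q ≤ Q * (M + 2) := by
      rw [mul_comm]; exact Nat.mul_le_mul_left _ (by omega)
    exact this.trans (le_trans (Nat.le_add_right _ _) hn)
  have h3 : qq * (qq * m + 2 * s₁) ≤ n := by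
    have e1 : qq * (qq * m + 2 * s₁) = qq ^ 2 * m + qq * (2 * s₁) := by ring
    have e2 : Q * m = 2 * (qq ^ 2 * m) := by rw [hQ]; ring
    have e3 : 2 * (qq * (2 * s₁)) ≤ n := le_trans (Nat.le_add_left _ _) hn
    rw [e1]
    omega
  have h4 : n ≤ 4 * qq ^ 2 * m := by
    have e1 : 4 * qq ^ 2 * m = Q * m + Q * m := by rw [hQ]; ring
    have e2 : Q ≤ Q * m := Nat.le_mul_of_pos_right _ (by omega)
    omega
  exact core n m s₁ hs₁ hsA h3 h4 hmM H K

/-- **Q1 of MP_69a6f7 holds.** -/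
theorem result : ∃ N : ℕ, ∀ n ≥ N, PropP n := by
  obtain ⟨N, hN⟩ := core_large
  refine ⟨N, fun n hn G hG H K hH hK => ?_⟩
  have sH : Group.IsSolvable (H.map G.subtype) :=
    Group.isSolvable_of_surjective (G.subtype.subgroupMap_surjective H)
  have sK : Group.IsSolvable (K.map G.subtype) :=
    Group.isSolvable_of_surjective (G.subtype.subgroupMap_surjective K)
  obtain ⟨x, hx, hxg⟩ := hN n hn (H.map G.subtype) (K.map G.subtype) sH sK
  have hxG : x ∈ G := by
    rcases hG with rfl | rfl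
    · exact Perm.mem_alternatingGroup.2 hx
    · exact Subgroup.mem_top _
  refine ⟨⟨x, hxG⟩, ?_⟩
  rw [eq_bot_iff]
  rintro g ⟨hgH, hgK⟩
  obtain ⟨k, hk, hkg⟩ := hgK
  have hkg' : (x⁻¹ : Perm (Fin n)) * (k : Perm (Fin n)) * x = (g : Perm (Fin n)) := by
    rw [← hkg]
    simp
  have h1 : (g : Perm (Fin n)) = 1 := by
    apply hxg g ⟨g, hgH, rfl⟩
    refine ⟨k, hk, ?_⟩
    rw [← hkg']
    simp [mul_assoc]
  rw [Subgroup.mem_bot]
  exact Subtype.ext h1

end Pool.Agent.Results.MP_69a6f7_al.SolubleIntersections
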